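import Mathlib

/-!
# A sequence of zero density whose sum with every basis has positive density: the core

Combinatorial core: blocks `R` of integers with small pair correlations.
-/

set_option autoImplicit false

open Finset Pointwise

namespace Pool.Agent.U780.Stohr

/-- The elements of a block. -/
def el (D p k c : ℕ) : ℕ := D + 2 * p * k + (c * k ^ 2) % p

/-- The block. -/
def blk (D p M : ℕ) : Finset ℕ :=
  ((Ico 1 p) ×ˢ (Icc 1 M)).image fun x => el D p x.1 x.2

/-- `x + b` is the sum of an element of `R` and `b'`. -/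
def Hit (R : Finset ℕ) (b b' x : ℕ) : Prop := ∃ y ∈ R, x + b = y + b'

/-- The number `k` has a partner. -/
def Sol (D p c c' b b' k : ℕ) : Prop := ∃ k' ∈ Ico 1 p, el D p k c + b = el D p k' c' + b'

theorem quad {p : ℕ} [Fact p.Prime] (α γ δ : ZMod p) (h : ¬(α = 0 ∧ γ = 0)) (S : Finset ℕ)
    (hS : ∀ k ∈ S, k < p ∧ α * (k : ZMod p) ^ 2 + γ * k + δ = 0) : S.card ≤ 2 := by
  classical
  set P : Polynomial (ZMod p) :=
    Polynomial.C α * Polynomial.X ^ 2 + Polynomial.C γ * Polynomial.X + Polynomial.C δ with hP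
  have hP0 : P ≠ 0 := by
    intro h0
    apply h
    have h2 : P.coeff 2 = 0 := by rw [h0]; simp
    have h1 : P.coeff 1 = 0 := by rw [h0]; simp
    constructor
    · simpa [hP, Polynomial.coeff_X, Polynomial.coeff_C] using h2
    · simpa [hP, Polynomial.coeff_X, Polynomial.coeff_C] using h1
  have hdeg : P.natDegree ≤ 2 := Polynomial.natDegree_quadratic_le
  calc S.card ≤ P.roots.toFinset.card := by
        apply Finset.card_le_card_of_injOn (fun k : ℕ => (k : ZMod p))
        · intro k hk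
          have := (hS k hk).2
          simp only [Finset.mem_coe, Multiset.mem_toFinset]
          rw [Polynomial.mem_roots hP0]
          simp only [hP, Polynomial.IsRoot.def, Polynomial.eval_add, Polynomial.eval_mul,
            Polynomial.eval_C, Polynomial.eval_pow, Polynomial.eval_X]
          exact this
        · intro a ha b hb hab
          have ha' := (hS a ha).1
          have hb' := (hS b hb).1
          have := (ZMod.natCast_eq_natCast_iff' a b p).1 hab
          rwa [Nat.mod_eq_of_lt ha', Nat.mod_eq_of_lt hb'] at this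
    _ ≤ Multiset.card P.roots := Multiset.toFinset_card_le _
    _ ≤ P.natDegree := Polynomial.card_roots' P
    _ ≤ 2 := hdeg

/-- Unique decomposition of the differences. -/
theorem decomp {p : ℤ} (hp : 0 < p) {a a' r s r' s' : ℤ} (hr : 0 ≤ r ∧ r < p) (hs : 0 ≤ s ∧ s < p)
    (hr' : 0 ≤ r' ∧ r' < p) (hs' : 0 ≤ s' ∧ s' < p)
    (h : 2 * p * a + (r - s) = 2 * p * a' + (r' - s')) : a = a' ∧ r - s = r' - s' := by
  have h1 : a = a' := by
    rcases lt_trichotomy a a' with h2 | h2 | h2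
    · exfalso
      nlinarith
    · exact h2
    · exfalso
      nlinarith
  subst h1
  exact ⟨rfl, by linarith⟩

theorem zmod_el {p : ℕ} (k c : ℕ) : (((c * k ^ 2 % p : ℕ) : ℤ) : ZMod p) = (c : ZMod p) * k ^ 2 := by
  rw [Int.cast_natCast, ZMod.natCast_mod]
  push_cast
  rfl

open Classical in
/-- For given `c`, `c'` there are at most two `k`. -/
theorem pair {D p M : ℕ} [hp : Fact p.Prime] (hp2 : 2 < p) (hM : M < p) {b b' : ℕ} (hb : b ≠ b')
    {c c' : ℕ} (hc : c ∈ Icc 1 M) (hc' : c' ∈ Icc 1 M) :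
    ((Ico 1 p).filter fun k => Sol D p c c' b b' k).card ≤ 2 := by
  set S := (Ico 1 p).filter fun k => Sol D p c c' b b' k with hS
  rcases S.eq_empty_or_nonempty with h0 | ⟨k0, hk0⟩
  · rw [h0]; simp
  rw [hS, mem_filter] at hk0
  obtain ⟨hk0, k0', hk0', h0⟩ := hk0
  rw [mem_Ico] at hk0 hk0'
  rw [mem_Icc] at hc hc'
  have hp0 : 0 < p := by omega
  set r0 : ℤ := ((c * k0 ^ 2 % p : ℕ) : ℤ) with hr0
  set s0 : ℤ := ((c' * k0' ^ 2 % p : ℕ) : ℤ) with hs0
  have hr0' : 0 ≤ r0 ∧ r0 < p := by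
    rw [hr0]; exact ⟨by positivity, by exact_mod_cast Nat.mod_lt _ hp0⟩
  have hs0' : 0 ≤ s0 ∧ s0 < p := by
    rw [hs0]; exact ⟨by positivity, by exact_mod_cast Nat.mod_lt _ hp0⟩
  have h0z : 2 * (p : ℤ) * ((k0 : ℤ) - k0') + (r0 - s0) = (b' : ℤ) - b := by
    unfold el at h0
    have : ((D + 2 * p * k0 + c * k0 ^ 2 % p + b : ℕ) : ℤ)
      = ((D + 2 * p * k0' + c' * k0' ^ 2 % p + b' : ℕ) : ℤ) := by exact_mod_cast h0
    rw [Nat.cast_add, Nat.cast_add, Nat.cast_add, Nat.cast_add, Nat.cast_add, Nat.cast_add,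
      ← hr0, ← hs0] at this
    push_cast at this
    linarith
  apply quad ((c : ZMod p) - (c' : ZMod p)) (2 * (((k0 : ℤ) - k0' : ℤ) : ZMod p) * (c' : ZMod p))
    (-(c' : ZMod p) * (((k0 : ℤ) - k0' : ℤ) : ZMod p) ^ 2 - ((r0 - s0 : ℤ) : ZMod p))
  · rintro ⟨h1, h2⟩
    have hcc : c = c' := by
      have h3 : (c : ZMod p) = c' := sub_eq_zero.1 h1
      have := (ZMod.natCast_eq_natCast_iff' c c' p).1 h3
      rwa [Nat.mod_eq_of_lt (by omega), Nat.mod_eq_of_lt (by omega)] at this
    have hc0 : (c' : ZMod p) ≠ 0 := by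
      intro h
      rw [ZMod.natCast_eq_zero_iff] at h
      have := Nat.le_of_dvd (by omega) h
      omega
    have h20 : (2 : ZMod p) ≠ 0 := by
      intro h
      have h' : ((2 : ℕ) : ZMod p) = 0 := by exact_mod_cast h
      rw [ZMod.natCast_eq_zero_iff] at h'
      have := Nat.le_of_dvd (by omega) h'
      omega
    have ha : (((k0 : ℤ) - k0' : ℤ) : ZMod p) = 0 := by
      rcases mul_eq_zero.1 h2 with h | h
      · rcases mul_eq_zero.1 h with h | h
        · exact absurd h h20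
        · exact h
      · exact absurd h hc0
    have hkk : k0 = k0' := by
      have h3 : (k0 : ZMod p) = k0' := by
        push_cast at ha
        exact sub_eq_zero.1 ha
      have := (ZMod.natCast_eq_natCast_iff' k0 k0' p).1 h3
      rwa [Nat.mod_eq_of_lt (by omega), Nat.mod_eq_of_lt (by omega)] at this
    apply hb
    subst hcc
    subst hkk
    omega
  · intro k hk
    rw [hS, mem_filter] at hk
    obtain ⟨hk, k', hk', h⟩ := hk
    rw [mem_Ico] at hk hk'
    refine ⟨hk.2, ?_⟩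
    set r : ℤ := ((c * k ^ 2 % p : ℕ) : ℤ) with hr
    set s : ℤ := ((c' * k' ^ 2 % p : ℕ) : ℤ) with hs
    have hr' : 0 ≤ r ∧ r < p := by
      rw [hr]; exact ⟨by positivity, by exact_mod_cast Nat.mod_lt _ hp0⟩
    have hs' : 0 ≤ s ∧ s < p := by
      rw [hs]; exact ⟨by positivity, by exact_mod_cast Nat.mod_lt _ hp0⟩
    have hz : 2 * (p : ℤ) * ((k : ℤ) - k') + (r - s) = (b' : ℤ) - b := by
      unfold el at h
      have : ((D + 2 * p * k + c * k ^ 2 % p + b : ℕ) : ℤ)
        = ((D + 2 * p * k' + c' * k' ^ 2 % p + b' : ℕ) : ℤ) := by exact_mod_cast h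
      rw [Nat.cast_add, Nat.cast_add, Nat.cast_add, Nat.cast_add, Nat.cast_add, Nat.cast_add,
        ← hr, ← hs] at this
      push_cast at this
      linarith
    obtain ⟨ha, hβ⟩ := decomp (p := (p : ℤ)) (by exact_mod_cast hp0) hr' hs' hr0' hs0'
      (hz.trans h0z.symm)
    have e1 : (r : ZMod p) = (c : ZMod p) * k ^ 2 := by rw [hr]; exact zmod_el k c
    have e2 : (s : ZMod p) = (c' : ZMod p) * k' ^ 2 := by rw [hs]; exact zmod_el k' c'
    have e3 : ((r0 - s0 : ℤ) : ZMod p) = (c : ZMod p) * k ^ 2 - (c' : ZMod p) * k' ^ 2 := by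
      rw [← hβ, Int.cast_sub, e1, e2]
    have e4 : (((k0 : ℤ) - k0' : ℤ) : ZMod p) = (k : ZMod p) - k' := by
      rw [← ha]; push_cast; ring
    rw [e3, e4]
    ring

open Classical in
theorem corr {D p M : ℕ} [hp : Fact p.Prime] (hp2 : 2 < p) (hM : M < p) {b b' : ℕ} (hb : b ≠ b') :
    ((blk D p M).filter fun x => Hit (blk D p M) b b' x).card ≤ 2 * M ^ 2 := by
  have hsub : ((blk D p M).filter fun x => Hit (blk D p M) b b' x) ⊆
      ((Icc 1 M) ×ˢ (Icc 1 M)).biUnion fun cc =>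
        ((Ico 1 p).filter fun k => Sol D p cc.1 cc.2 b b' k).image fun k => el D p k cc.1 := by
    intro x hx
    rw [mem_filter] at hx
    obtain ⟨hx, y, hy, hxy⟩ := hx
    unfold blk at hx hy
    rw [mem_image] at hx hy
    obtain ⟨⟨k, c⟩, hkc, rfl⟩ := hx
    obtain ⟨⟨k', c'⟩, hkc', rfl⟩ := hy
    rw [mem_product] at hkc hkc'
    rw [mem_biUnion]
    refine ⟨(c, c'), ?_, ?_⟩
    · rw [mem_product]; exact ⟨hkc.2, hkc'.2⟩
    · rw [mem_image]
      refine ⟨k, ?_, rfl⟩
      rw [mem_filter]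
      exact ⟨hkc.1, k', hkc'.1, hxy⟩
  calc _ ≤ _ := card_le_card hsub
    _ ≤ ∑ cc ∈ (Icc 1 M) ×ˢ (Icc 1 M), _ := card_biUnion_le
    _ ≤ ∑ cc ∈ (Icc 1 M) ×ˢ (Icc 1 M), 2 := by
        apply Finset.sum_le_sum
        intro cc hcc
        rw [mem_product] at hcc
        exact card_image_le.trans (pair hp2 hM hb hcc.1 hcc.2)
    _ = 2 * M ^ 2 := by
        rw [Finset.sum_const, card_product, Nat.card_Icc]
        simp only [smul_eq_mul]
        have : M + 1 - 1 = M := by omega
        rw [this]; ring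

open Classical in
theorem union_bound {R : Finset ℕ} {s : ℕ} (B : Finset ℕ)
    (h : ∀ b ∈ B, ∀ b' ∈ B, b ≠ b' → (R.filter fun x => Hit R b b' x).card ≤ s) :
    B.card * R.card ≤ (R + B).card + s * B.card ^ 2 := by
  induction B using Finset.induction_on with
  | empty => simp
  | insert b B hb ih =>
    have ih' := ih (fun x hx y hy => h x (mem_insert_of_mem hx) y (mem_insert_of_mem hy))
    have hadd : R + insert b B = (R + {b}) ∪ (R + B) := by
      rw [Finset.insert_eq, Finset.add_union]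
    have hinter : ((R + {b}) ∩ (R + B)).card ≤ s * B.card := by
      have hsub : (R + {b}) ∩ (R + B) ⊆
          B.biUnion fun b' => (R.filter fun x => Hit R b b' x).image fun x => x + b := by
        intro z hz
        rw [mem_inter] at hz
        obtain ⟨hz1, hz2⟩ := hz
        rw [Finset.mem_add] at hz1 hz2
        obtain ⟨x, hx, b1, hb1, rfl⟩ := hz1
        obtain ⟨y, hy, b', hb', hxy⟩ := hz2
        rw [mem_singleton] at hb1
        subst hb1
        rw [mem_biUnion]
        refine ⟨b', hb', ?_⟩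
        rw [mem_image]
        refine ⟨x, ?_, rfl⟩
        rw [mem_filter]
        exact ⟨hx, y, hy, hxy.symm⟩
      calc _ ≤ _ := card_le_card hsub
        _ ≤ ∑ b' ∈ B, _ := card_biUnion_le
        _ ≤ ∑ b' ∈ B, s := by
            apply Finset.sum_le_sum
            intro b' hb'
            refine card_image_le.trans (h b (mem_insert_self _ _) b' (mem_insert_of_mem hb') ?_)
            rintro rfl
            exact hb hb'
        _ = s * B.card := by rw [Finset.sum_const, smul_eq_mul, mul_comm]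
    have hcard1 : (R + {b}).card = R.card := by
      rw [Finset.add_singleton]
      exact Finset.card_image_of_injective _ (add_left_injective b)
    have hu := Finset.card_union_add_card_inter (R + {b}) (R + B)
    rw [hadd, card_insert_of_notMem hb]
    nlinarith

theorem el_inj {D p M : ℕ} [hp : Fact p.Prime] (hM : M < p) :
    Set.InjOn (fun x : ℕ × ℕ => el D p x.1 x.2) ((Ico 1 p) ×ˢ (Icc 1 M) : Finset (ℕ × ℕ)) := by
  rintro ⟨k, c⟩ h1 ⟨k', c'⟩ h2 h
  simp only [coe_product, Set.mem_prod, coe_Ico, coe_Icc, Set.mem_Ico, Set.mem_Icc] at h1 h2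
  simp only at h
  have hp0 : 0 < p := hp.out.pos
  have hr' : 0 ≤ ((c * k ^ 2 % p : ℕ) : ℤ) ∧ ((c * k ^ 2 % p : ℕ) : ℤ) < p :=
    ⟨by positivity, by exact_mod_cast Nat.mod_lt _ hp0⟩
  have hs' : 0 ≤ ((c' * k' ^ 2 % p : ℕ) : ℤ) ∧ ((c' * k' ^ 2 % p : ℕ) : ℤ) < p :=
    ⟨by positivity, by exact_mod_cast Nat.mod_lt _ hp0⟩
  have hz : (0 : ℤ) ≤ 0 ∧ (0 : ℤ) < p := ⟨le_rfl, by exact_mod_cast hp0⟩
  have h0z : 2 * (p : ℤ) * ((k : ℤ) - k') + (((c * k ^ 2 % p : ℕ) : ℤ) - ((c' * k' ^ 2 % p : ℕ) : ℤ))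
      = 2 * (p : ℤ) * 0 + (0 - 0) := by
    unfold el at h
    have : ((D + 2 * p * k + c * k ^ 2 % p : ℕ) : ℤ)
      = ((D + 2 * p * k' + c' * k' ^ 2 % p : ℕ) : ℤ) := by exact_mod_cast h
    rw [Nat.cast_add, Nat.cast_add, Nat.cast_add, Nat.cast_add] at this
    push_cast at this ⊢
    linarith
  obtain ⟨ha, hβ⟩ := decomp (p := (p : ℤ)) (by exact_mod_cast hp0) hr' hs' hz hz h0z
  have hkk : k = k' := by omega
  subst hkk
  have hmod : c * k ^ 2 % p = c' * k ^ 2 % p := by omega
  have hcop : Nat.Coprime p (k ^ 2) := by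
    apply Nat.Coprime.pow_right
    rw [Nat.Prime.coprime_iff_not_dvd hp.out]
    intro hd
    have := Nat.le_of_dvd (by omega) hd
    omega
  have : c ≡ c' [MOD p] := Nat.ModEq.cancel_right_of_coprime hcop hmod
  have hcc : c = c' := by
    unfold Nat.ModEq at this
    rwa [Nat.mod_eq_of_lt (by omega), Nat.mod_eq_of_lt (by omega)] at this
  rw [hcc]

theorem card_blk {D p M : ℕ} [hp : Fact p.Prime] (hM : M < p) :
    (blk D p M).card = (p - 1) * M := by
  unfold blk
  rw [Finset.card_image_of_injOn (el_inj hM), card_product, Nat.card_Ico, Nat.card_Icc]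
  congr 1

theorem blk_bound {D p M x : ℕ} (hx : x ∈ blk D p M) : D ≤ x ∧ x < D + 2 * p ^ 2 := by
  unfold blk at hx
  rw [mem_image] at hx
  obtain ⟨⟨k, c⟩, hkc, rfl⟩ := hx
  rw [mem_product, mem_Ico] at hkc
  unfold el
  simp only at hkc ⊢
  have hp0 : 0 < p := by omega
  have hm := Nat.mod_lt (c * k ^ 2) hp0
  refine ⟨by omega, ?_⟩
  have h1 : k + 1 ≤ p := hkc.1.2
  nlinarith

/-- The sum of a block with a set of `m` integers, if `m M = Q` and `4 Q < p`. -/
theorem sum_bound {D p M Q : ℕ} [hp : Fact p.Prime] (hQ : 4 * Q < p) (B : Finset ℕ)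
    (hBM : B.card * M = Q) (hB : 0 < B.card) (hQ0 : 0 < Q) :
    2 * Q ^ 2 ≤ (blk D p M + B).card := by
  have hMQ : M ≤ Q := by
    rw [← hBM]; exact Nat.le_mul_of_pos_left _ hB
  have hM : M < p := by omega
  have h := union_bound (R := blk D p M) (s := 2 * M ^ 2) B
    (fun b _ b' _ hbb => corr (by omega) hM hbb)
  rw [card_blk hM] at h
  have e1 : B.card * ((p - 1) * M) = (p - 1) * Q := by rw [← hBM]; ring
  have e2 : 2 * M ^ 2 * B.card ^ 2 = 2 * Q ^ 2 := by rw [← hBM]; ring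
  rw [e1, e2] at h
  have h3 : 4 * Q ≤ p - 1 := by omega
  have h4 : 4 * Q * Q ≤ (p - 1) * Q := Nat.mul_le_mul_right _ h3
  nlinarith

end Pool.Agent.U780.Stohr
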