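import Mathlib

/-!
# Sequences, Schnirelmann density and bases: definitions
-/

set_option autoImplicit false

open Pointwise

namespace Pool.Agent.U780.Stohr

/-- The set `{0, 1} ∪ {p : p prime}`. -/
def P : Set ℕ := {0, 1} ∪ {p | p.Prime}

/-- The counting function `A(n)`, the number of the elements `a` of `A` with `1 ≤ a ≤ n`. -/
noncomputable def count (A : Set ℕ) (n : ℕ) : ℕ := (A ∩ Set.Icc 1 n).ncard

/-- The Schnirelmann density of `A`, the infimum of `A(n) / n` for `n ≥ 1`. -/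
noncomputable def sigma (A : Set ℕ) : ℝ := ⨅ n : {n : ℕ // 1 ≤ n}, (count A n : ℝ) / (n : ℕ)

/-- The set `A` has zero asymptotic density: `A(n) / n → 0`. -/
def ZeroDensity (A : Set ℕ) : Prop :=
  Filter.Tendsto (fun n : ℕ => (count A n : ℝ) / n) Filter.atTop (nhds 0)

/-- The set `B` contains `0` and is a basis of order `h`: every `n ≥ 0` is a sum of `h` elements of
`B`. -/
def IsBasis (B : Set ℕ) (h : ℕ) : Prop :=
  0 ∈ B ∧ ∀ n : ℕ, ∃ f : Fin h → ℕ, (∀ i, f i ∈ B) ∧ ∑ i, f i = n

end Pool.Agent.U780.Stohr
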