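import Pool.Agent.U780.Stohr.Core
import Pool.Agent.U780.Stohr.Defs

/-!
# A sequence of zero density whose sum with every basis has positive density
-/

set_option autoImplicit false

open Finset Pointwise

namespace Pool.Agent.U780.Stohr

theorem exists_p (j : ℕ) : ∃ p : ℕ, p.Prime ∧ 4 * 2 ^ j < p ∧ p ≤ 2 * (4 * 2 ^ j) :=
  Nat.exists_prime_lt_and_le_two_mul (4 * 2 ^ j) (by positivity)

/-- A prime number between `4 * 2 ^ j` and `8 * 2 ^ j`. -/
noncomputable def pr (j : ℕ) : ℕ := (exists_p j).choose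

theorem pr_prime (j : ℕ) : (pr j).Prime := (exists_p j).choose_spec.1

theorem pr_gt (j : ℕ) : 4 * 2 ^ j < pr j := (exists_p j).choose_spec.2.1

theorem pr_le (j : ℕ) : pr j ≤ 8 * 2 ^ j := by
  have := (exists_p j).choose_spec.2.2
  unfold pr
  omega

/-- The exponent `i_j`, the integral part of `log_2 (j + 1)`. -/
def ix (j : ℕ) : ℕ := Nat.log 2 (j + 1)

theorem pow_ix_le (j : ℕ) : 2 ^ ix j ≤ j + 1 := Nat.pow_log_le_self 2 (by omega)

theorem lt_pow_ix (j : ℕ) : j + 1 < 2 ^ (ix j + 1) := Nat.lt_pow_succ_log_self (by norm_num) _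

theorem ix_le (j : ℕ) : ix j ≤ j := by
  by_contra h
  push Not at h
  have h1 := pow_ix_le j
  have h2 : 2 ^ (j + 1) ≤ 2 ^ ix j := Nat.pow_le_pow_right (by norm_num) h
  have h3 : j + 1 < 2 ^ (j + 1) := Nat.lt_two_pow_self
  omega

/-- The parameter `M_j`. -/
def mm (j : ℕ) : ℕ := 2 ^ (j - ix j)

theorem pow_mul_mm (j : ℕ) : 2 ^ ix j * mm j = 2 ^ j := by
  unfold mm
  rw [← pow_add]
  congr 1
  have := ix_le j
  omega

/-- The block `R_j`. -/
noncomputable def bk (j : ℕ) : Finset ℕ := blk (128 * 4 ^ j) (pr j) (mm j)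

/-- The sequence. -/
def seq : Set ℕ := {0} ∪ {n | ∃ j, n ∈ bk j}

theorem bk_bound {j x : ℕ} (hx : x ∈ bk j) : 128 * 4 ^ j ≤ x ∧ x < 256 * 4 ^ j := by
  have h := blk_bound hx
  have h1 := pr_le j
  have h2 : pr j ^ 2 ≤ (8 * 2 ^ j) ^ 2 := Nat.pow_le_pow_left h1 2
  have h3 : (8 * 2 ^ j) ^ 2 = 64 * 4 ^ j := by
    rw [mul_pow, ← pow_mul, mul_comm j 2, pow_mul]; norm_num
  omega

theorem mm_le (j : ℕ) : mm j ≤ 2 ^ j := by
  rw [← pow_mul_mm j]
  exact Nat.le_mul_of_pos_left _ (by positivity)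

theorem card_bk (j : ℕ) : (bk j).card * (j + 1) ≤ 16 * 4 ^ j := by
  have : Fact (pr j).Prime := ⟨pr_prime j⟩
  have h1 := pr_le j
  have h1' := pr_gt j
  have h2 := mm_le j
  have h0 : 0 < 2 ^ j := by positivity
  unfold bk
  rw [card_blk (by omega)]
  have h3 := lt_pow_ix j
  have h4 := pow_mul_mm j
  calc (pr j - 1) * mm j * (j + 1) ≤ (8 * 2 ^ j) * mm j * 2 ^ (ix j + 1) := by
        apply Nat.mul_le_mul
        · apply Nat.mul_le_mul_right
          omega
        · omega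
    _ = 16 * 2 ^ j * (2 ^ ix j * mm j) := by ring
    _ = 16 * 4 ^ j := by
        rw [h4, mul_assoc, ← pow_add, ← two_mul, pow_mul]
        norm_num

theorem sum_card (J : ℕ) : (∑ j ∈ range (J + 1), (bk j).card) * (J + 1) ≤ 48 * 4 ^ J := by
  induction J with
  | zero =>
    have := card_bk 0
    simp at this ⊢
    omega
  | succ J ih =>
    rw [sum_range_succ]
    have h1 := card_bk (J + 1)
    have h2 : (∑ j ∈ range (J + 1), (bk j).card) * (J + 1 + 1)
        ≤ 2 * ((∑ j ∈ range (J + 1), (bk j).card) * (J + 1)) := by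
      have h3 := Nat.zero_le ((∑ j ∈ range (J + 1), (bk j).card) * J)
      nlinarith
    rw [pow_succ] at h1 ⊢
    nlinarith

theorem count_le (J n : ℕ) (hn : n < 128 * 4 ^ (J + 1)) :
    count seq n ≤ ∑ j ∈ range (J + 1), (bk j).card := by
  unfold count
  have hsub : seq ∩ Set.Icc 1 n ⊆ ((range (J + 1)).biUnion bk : Finset ℕ) := by
    rintro x ⟨hx, hx1, hx2⟩
    rcases hx with hx | ⟨j, hj⟩
    · rw [Set.mem_singleton_iff] at hx
      omega
    · rw [Finset.mem_coe, mem_biUnion]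
      refine ⟨j, ?_, hj⟩
      rw [mem_range]
      by_contra hc
      push Not at hc
      have h1 := (bk_bound hj).1
      have h2 : 4 ^ (J + 1) ≤ 4 ^ j := Nat.pow_le_pow_right (by norm_num) hc
      omega
  calc _ ≤ (((range (J + 1)).biUnion bk : Finset ℕ) : Set ℕ).ncard :=
        Set.ncard_le_ncard hsub (Finset.finite_toSet _)
    _ = ((range (J + 1)).biUnion bk).card := Set.ncard_coe_finset _
    _ ≤ _ := card_biUnion_le

theorem tendsto_log : Filter.Tendsto (fun n : ℕ => Nat.log 4 (n / 128)) Filter.atTop Filter.atTop := by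
  rw [Filter.tendsto_atTop]
  intro K
  filter_upwards [Filter.eventually_ge_atTop (128 * 4 ^ K)] with n hn
  apply Nat.le_log_of_pow_le (by norm_num)
  rw [Nat.le_div_iff_mul_le (by norm_num)]
  omega

theorem zeroDensity_seq : ZeroDensity seq := by
  unfold ZeroDensity
  have hlim : Filter.Tendsto (fun n : ℕ => 1 / ((Nat.log 4 (n / 128) : ℝ) + 1)) Filter.atTop
      (nhds 0) :=
    tendsto_one_div_add_atTop_nhds_zero_nat.comp tendsto_log
  refine squeeze_zero' (Filter.Eventually.of_forall fun n => by positivity) ?_ hlim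
  filter_upwards [Filter.eventually_ge_atTop 128] with n hn
  set J := Nat.log 4 (n / 128) with hJ
  have hn0 : n / 128 ≠ 0 := by
    have : 1 ≤ n / 128 := by rw [Nat.le_div_iff_mul_le (by norm_num)]; omega
    omega
  have h1 : 4 ^ J ≤ n / 128 := Nat.pow_log_le_self 4 hn0
  have h1' : 128 * 4 ^ J ≤ n := by
    rw [Nat.le_div_iff_mul_le (by norm_num)] at h1
    omega
  have h2 : n / 128 < 4 ^ (J + 1) := Nat.lt_pow_succ_log_self (by norm_num) _
  have h2' : n < 128 * 4 ^ (J + 1) := by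
    rw [Nat.div_lt_iff_lt_mul (by norm_num)] at h2
    omega
  have h3 := count_le J n h2'
  have h4 := sum_card J
  have h5 : count seq n * (J + 1) ≤ n := by
    calc count seq n * (J + 1) ≤ (∑ j ∈ range (J + 1), (bk j).card) * (J + 1) :=
          Nat.mul_le_mul_right _ h3
      _ ≤ 48 * 4 ^ J := h4
      _ ≤ n := by omega
  have hnpos : (0 : ℝ) < n := by
    have : 0 < n := by omega
    exact_mod_cast this
  rw [div_le_div_iff₀ hnpos (by positivity)]
  have : ((count seq n * (J + 1) : ℕ) : ℝ) ≤ n := by exact_mod_cast h5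
  push_cast at this
  linarith

/-- The elements of `B` in `[0, N]`. -/
noncomputable def trunc (B : Set ℕ) (N : ℕ) : Finset ℕ :=
  (Set.Finite.subset (Set.finite_Iic N) (Set.inter_subset_right (s := B))).toFinset

theorem mem_trunc {B : Set ℕ} {N x : ℕ} : x ∈ trunc B N ↔ x ∈ B ∧ x ≤ N := by
  simp [trunc]

theorem card_trunc {B : Set ℕ} {h : ℕ} (hB : IsBasis B h) (N : ℕ) :
    N + 1 ≤ (trunc B N).card ^ h := by
  classical
  have hsub : range (N + 1) ⊆
      (Fintype.piFinset fun _ : Fin h => trunc B N).image fun f => ∑ i, f i := by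
    intro n hn
    rw [mem_range] at hn
    obtain ⟨f, hf, hsum⟩ := hB.2 n
    rw [mem_image]
    refine ⟨f, ?_, hsum⟩
    rw [Fintype.mem_piFinset]
    intro i
    rw [mem_trunc]
    refine ⟨hf i, ?_⟩
    have : f i ≤ ∑ i, f i := Finset.single_le_sum (fun _ _ => Nat.zero_le _) (mem_univ i)
    omega
  calc N + 1 = (range (N + 1)).card := (card_range _).symm
    _ ≤ _ := card_le_card hsub
    _ ≤ _ := card_image_le
    _ = _ := by
      rw [Fintype.card_piFinset]
      simp

theorem one_mem {B : Set ℕ} {h : ℕ} (hB : IsBasis B h) : 1 ∈ B := by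
  obtain ⟨f, hf, hsum⟩ := hB.2 1
  by_contra h1
  have h2 : ∀ i, f i = 0 := by
    intro i
    have h3 : f i ≤ ∑ i, f i := Finset.single_le_sum (fun _ _ => Nat.zero_le _) (mem_univ i)
    have h4 : f i ≠ 1 := fun h => h1 (h ▸ hf i)
    omega
  have : ∑ i, f i = 0 := Finset.sum_eq_zero fun i _ => h2 i
  omega

theorem eventually_large (h : ℕ) : ∃ j₀ : ℕ, ∀ j ≥ j₀, (j + 1) ^ h < 4 ^ (j + 1) := by
  have ht := tendsto_pow_const_div_const_pow_of_one_lt h (r := (4 : ℝ)) (by norm_num)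
  have h1 : ∀ᶠ n : ℕ in Filter.atTop, (n : ℝ) ^ h / 4 ^ n < 1 :=
    ht.eventually (gt_mem_nhds (by norm_num : (0 : ℝ) < 1))
  obtain ⟨n₀, hn₀⟩ := Filter.eventually_atTop.1 h1
  refine ⟨n₀, fun j hj => ?_⟩
  have h2 := hn₀ (j + 1) (by omega)
  rw [div_lt_one (by positivity)] at h2
  exact_mod_cast h2

theorem count_mono (A : Set ℕ) {m n : ℕ} (h : m ≤ n) : count A m ≤ count A n := by
  unfold count
  apply Set.ncard_le_ncard
  · exact Set.inter_subset_inter_right _ (Set.Icc_subset_Icc_right h)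
  · exact (Set.finite_Icc 1 n).subset Set.inter_subset_right

theorem count_add {B : Set ℕ} {h : ℕ} (hB : IsBasis B h) :
    ∃ j₀ : ℕ, ∀ j ≥ j₀, 2 * 4 ^ j ≤ count (seq + B) (512 * 4 ^ j) := by
  obtain ⟨j₀, hj₀⟩ := eventually_large h
  refine ⟨j₀, fun j hj => ?_⟩
  have : Fact (pr j).Prime := ⟨pr_prime j⟩
  have h1 := card_trunc hB (256 * 4 ^ j)
  have h2 : 2 ^ ix j ≤ (trunc B (256 * 4 ^ j)).card := by
    by_contra hc
    push Not at hc
    have h3 := pow_ix_le j
    have h4 : (trunc B (256 * 4 ^ j)).card ≤ j + 1 := by omega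
    have h5 : (trunc B (256 * 4 ^ j)).card ^ h ≤ (j + 1) ^ h := Nat.pow_le_pow_left h4 h
    have h6 := hj₀ j hj
    rw [pow_succ] at h6
    omega
  obtain ⟨B', hB', hcard⟩ := Finset.exists_subset_card_eq h2
  have h3 := sum_bound (D := 128 * 4 ^ j) (p := pr j) (M := mm j) (Q := 2 ^ j) (pr_gt j) B'
    (by rw [hcard]; exact pow_mul_mm j) (by rw [hcard]; positivity) (by positivity)
  have h4 : 2 * (2 ^ j) ^ 2 = 2 * 4 ^ j := by
    rw [← pow_mul, mul_comm j 2, pow_mul]; norm_num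
  rw [h4] at h3
  refine h3.trans ?_
  unfold count
  rw [← Set.ncard_coe_finset]
  apply Set.ncard_le_ncard
  · intro x hx
    rw [Finset.mem_coe, Finset.mem_add] at hx
    obtain ⟨r, hr, b, hb, rfl⟩ := hx
    have hr' := bk_bound (j := j) hr
    have hb' := mem_trunc.1 (hB' hb)
    have h0 : 0 < 4 ^ j := by positivity
    refine ⟨Set.add_mem_add (Or.inr ⟨j, hr⟩) hb'.1, ?_, ?_⟩
    · omega
    · omega
  · exact (Set.finite_Icc 1 _).subset Set.inter_subset_right

theorem sigma_pos {C : Set ℕ} {K : ℕ} (hK : 0 < K) (h : ∀ n : ℕ, 1 ≤ n → n ≤ K * count C n) :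
    0 < sigma C := by
  have h1 : (1 : ℝ) / K ≤ sigma C := by
    unfold sigma
    have : Nonempty {n : ℕ // 1 ≤ n} := ⟨⟨1, le_rfl⟩⟩
    apply le_ciInf
    rintro ⟨n, hn⟩
    have hK' : (0 : ℝ) < K := by exact_mod_cast hK
    have hn' : (0 : ℝ) < n := by
      have : 0 < n := by omega
      exact_mod_cast this
    rw [div_le_div_iff₀ hK' hn']
    have := h n hn
    have h2 : (n : ℝ) ≤ ((K * count C n : ℕ) : ℝ) := by exact_mod_cast this
    push_cast at h2
    simp only
    linarith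
  have hK' : (0 : ℝ) < K := by exact_mod_cast hK
  exact lt_of_lt_of_le (by positivity) h1

theorem main {B : Set ℕ} {h : ℕ} (hB : IsBasis B h) : 0 < sigma (seq + B) := by
  obtain ⟨j₀, hj₀⟩ := count_add hB
  apply sigma_pos (K := 1024 * 4 ^ j₀) (by positivity)
  intro n hn
  have h0 : 0 < 4 ^ j₀ := by positivity
  by_cases hc : n < 512 * 4 ^ j₀
  · have h1 : 1 ≤ count (seq + B) n := by
      unfold count
      rw [Nat.succ_le_iff, Set.ncard_pos ((Set.finite_Icc 1 n).subset Set.inter_subset_right)]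
      refine ⟨1, ?_, le_rfl, hn⟩
      have : (0 : ℕ) + 1 ∈ seq + B := Set.add_mem_add (Or.inl rfl) (one_mem hB)
      simpa using this
    nlinarith
  · push Not at hc
    set j := Nat.log 4 (n / 512) with hj
    have h1 : 4 ^ j₀ ≤ n / 512 := by
      rw [Nat.le_div_iff_mul_le (by norm_num)]
      omega
    have h2 : j₀ ≤ j := Nat.le_log_of_pow_le (by norm_num) h1
    have h3 : 4 ^ j ≤ n / 512 := Nat.pow_log_le_self 4 (by omega)
    rw [Nat.le_div_iff_mul_le (by norm_num)] at h3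
    have h4 : n / 512 < 4 ^ (j + 1) := Nat.lt_pow_succ_log_self (by norm_num) _
    rw [Nat.div_lt_iff_lt_mul (by norm_num), pow_succ] at h4
    have h5 := hj₀ j h2
    have h6 := count_mono (seq + B) (show 512 * 4 ^ j ≤ n by omega)
    have h7 : 2 * 4 ^ j ≤ count (seq + B) n := h5.trans h6
    calc n ≤ 1024 * 1 * (2 * 4 ^ j) := by omega
      _ ≤ 1024 * 4 ^ j₀ * count (seq + B) n := by
        apply Nat.mul_le_mul _ h7
        omega

theorem seq_ne : seq ≠ P := by
  intro h
  have h1 : 2 ∈ P := Or.inr Nat.prime_two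
  rw [← h] at h1
  rcases h1 with h1 | ⟨j, hj⟩
  · simp at h1
  · have := (bk_bound hj).1
    have h0 : 0 < 4 ^ j := by positivity
    omega

end Pool.Agent.U780.Stohr
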